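import Mathlib
import Pool.Agent.H753R2.FR.T_F1
import Pool.Agent.H413R2.Sign.Corr

/-!
# The sign of the dichromatic polynomial in the region `R₃`

There is a constant `C` such that for every point `(q, v)` with `q ≥ C` and `v ≤ -q` the sign problem
for the dichromatic polynomial `Z(G;q,v)` is solvable in polynomial time.  These are all the points
of the region `R₃ = {q ≥ 4, v < -q}` with `q ≥ C`, and all the points of the line `v = -q` (the flow
polynomial) with `q ≥ C`.
-/

set_option autoImplicit false

open Finset

namespace Pool.Agent.Results.MP_e0c037_lc.SignInR3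

open Pool.Agent.NPC Pool.Agent.H753R2.FR Pool.Agent.H413R2.Sign

/-- The dichromatic polynomial `Z(G;q,v) = ∑_{A ⊆ E} q^{k(A)} v^{|A|}` of the multigraph with vertex
set `Fin n` and edges `Fin k`, the ends of the edge `e` being the two entries of `ends e` (loops and
parallel edges are allowed); `k(A)` is the number of connected components of the spanning subgraph
with edge set `A`. -/
noncomputable def Z {n k : ℕ} (ends : Fin k → Fin n × Fin n) (q v : ℝ) : ℝ :=
  ∑ A ∈ (Finset.univ : Finset (Fin k)).powerset,
    q ^ Nat.card (SimpleGraph.fromRel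
      (fun a b : Fin n => ∃ f ∈ A, ends f = (a, b))).ConnectedComponent * v ^ A.card

/-- The sign `+`, `-` or `0` of a real number, written as a bit string. -/
noncomputable def signBits (z : ℝ) : List Bool :=
  if 0 < z then [true] else if z < 0 then [false] else []

/-- The sign problem at the point `(q, v)` is solvable in polynomial time: some polynomial-time
computable function on bit strings maps the code of every multigraph `G` to the sign of
`Z(G;q,v)`. -/
def SignInP (q v : ℝ) : Prop :=
  ∃ f : List Bool → List Bool, PolyTime f ∧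
    ∀ (n k : ℕ) (ends : Fin k → Fin n × Fin n), f (code ends) = signBits (Z ends q v)

theorem Z_eq {n k : ℕ} (ends : Fin k → Fin n × Fin n) (q v : ℝ) :
    Z ends q v = ∑ A ∈ (Finset.univ : Finset (Fin k)).powerset,
      q ^ cl (conn (D6b.gr ends) A) * v ^ A.card := by
  unfold Z
  simp only [D6b.cl_conn_eq]

/-- on the line `v = -q` -/
theorem Z_line {n k : ℕ} (ends : Fin k → Fin n × Fin n) {q : ℝ} (hq : 1 < q) :
    Z ends q (-q) = (-1) ^ k * (m (D6b.gr ends) q ⊥ univ * (q - 1) ^ k) := by
  rw [Z_eq, ← D6b.flow_eval (D6b.gr ends) q hq, Finset.sum_mul, Finset.mul_sum]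
  refine Finset.sum_congr rfl fun A _ => ?_
  have h1 := E2.cl_conn' (D6b.gr ends) A
  rw [Fintype.card_fin] at h1
  have hAk : A.card ≤ k := by
    have := Finset.card_le_card (Finset.subset_univ A)
    rwa [Finset.card_univ, Fintype.card_fin] at this
  have e1 : q ^ (A.card + cl (conn (D6b.gr ends) A) - n) * q ^ n =
      q ^ A.card * q ^ cl (conn (D6b.gr ends) A) := by
    rw [← pow_add, Nat.sub_add_cancel h1, pow_add]
  have e2 : (-1 : ℝ) ^ k * (-1) ^ (k - A.card) = (-1) ^ A.card := by
    have h2 : (-1 : ℝ) ^ k = (-1) ^ (k - A.card) * (-1) ^ A.card := by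
      rw [← pow_add, Nat.sub_add_cancel hAk]
    rw [h2, mul_right_comm, ← mul_pow]
    norm_num
  calc q ^ cl (conn (D6b.gr ends) A) * (-q) ^ A.card
      = (-1) ^ A.card * (q ^ A.card * q ^ cl (conn (D6b.gr ends) A)) := by
        rw [neg_pow]; ring
    _ = ((-1) ^ k * (-1) ^ (k - A.card)) *
          (q ^ (A.card + cl (conn (D6b.gr ends) A) - n) * q ^ n) := by rw [e1, e2]
    _ = _ := by ring

theorem m_zero {n k : ℕ} (ends : Fin k → Fin n × Fin n) {q : ℝ} (hq : 1 < q)
    (h : ¬ Bridgeless (D6b.gr ends)) : m (D6b.gr ends) q ⊥ univ = 0 := by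
  unfold Bridgeless at h
  rw [not_forall] at h
  obtain ⟨e, he⟩ := h
  rw [← Finset.insert_erase (Finset.mem_univ e)]
  apply m_bridge (D6b.gr ends) q hq (Finset.notMem_erase e univ)
  rw [bot_sup_eq]
  exact he

theorem signBits_pos {k : ℕ} {z : ℝ} (h : 0 < (-1) ^ k * z) :
    signBits z = if k % 2 = 0 then [true] else [false] := by
  unfold signBits
  rcases Nat.mod_two_eq_zero_or_one k with h0 | h1
  · rw [if_pos h0]
    have he : Even k := Nat.even_iff.2 h0
    rw [he.neg_one_pow, one_mul] at h
    rw [if_pos h]
  · have ho : Odd k := Nat.odd_iff.2 h1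
    rw [ho.neg_one_pow] at h
    have hz : z < 0 := by linarith
    rw [if_neg (not_lt.2 hz.le), if_pos hz, if_neg (by omega)]

/-- the parity of the number of edges -/
theorem num_edges {n k : ℕ} (ends : Fin k → Fin n × Fin n) :
    (unpair (code ends)).2.length / (unpair (code ends)).1.length = k := by
  unfold code
  rw [unpair_pairBits]
  have h := mat_length ends
  unfold mat at h
  simp only [h, List.length_replicate]
  rcases Nat.eq_zero_or_pos n with hn | hn
  · subst hn
    rcases Nat.eq_zero_or_pos k with hk | hk
    · subst hk; simp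
    · exact ((ends ⟨0, hk⟩).1).elim0
  · exact Nat.mul_div_cancel k hn

theorem poly_parity : Poly (fun x : List Bool =>
    if ((unpair x).2.length / (unpair x).1.length) % 2 = 0 then [true] else [false]) := by
  refine Poly.ite ?_ (NPC.Poly.const _) (NPC.Poly.const _)
  exact Poly.decide_eq (Poly.mod (Poly.div (Poly.length (Poly.snd poly_unpair))
    (Poly.length (Poly.fst poly_unpair))) (NPC.Poly.const 2)) (NPC.Poly.const 0)

/-- There is a constant `C` such that for all real `q ≥ C` and `v ≤ -q` the sign problem at `(q, v)`
is solvable in polynomial time. -/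
theorem result : ∃ C : ℝ, ∀ q v : ℝ, C ≤ q → v ≤ -q → SignInP q v := by
  obtain ⟨C₁, hC₁, h₁⟩ := F1.dichr_pos
  obtain ⟨C₂, hC₂, h₂⟩ := flow_pos
  refine ⟨max C₁ C₂, ?_⟩
  intro q v hq hv
  have hq1 : C₁ ≤ q := (le_max_left _ _).trans hq
  have hq2 : C₂ ≤ q := (le_max_right _ _).trans hq
  rcases hv.lt_or_eq with hlt | heq
  · refine ⟨_, Pool.Agent.H622R2.polyTime_of_poly_list poly_parity, ?_⟩
    intro n k ends
    have h := h₁ q v hq1 hlt n k (D6b.gr ends)
    rw [← Z_eq] at h
    simp only [num_edges ends]
    exact (signBits_pos h).symm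
  · subst heq
    have hqq : 1 < q := by linarith
    refine ⟨fun x => if hasBridge (unpair x).1.length (unpair x).2 = true then [] else
      if ((unpair x).2.length / (unpair x).1.length) % 2 = 0 then [true] else [false], ?_, ?_⟩
    · refine Pool.Agent.H622R2.polyTime_of_poly_list (Poly.ite ?_ (NPC.Poly.const _) poly_parity)
      exact Poly.decide_eq (poly_hasBridge (Poly.fst poly_unpair) (Poly.snd poly_unpair))
        (NPC.Poly.const true)
    · intro n k ends
      have hb := hasBridge_iff ends
      have hu : unpair (code ends) = (List.replicate n true, mat ends) := by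
        unfold code
        rw [unpair_pairBits]
        rfl
      have hnum := num_edges ends
      simp only [hnum]
      rw [hu]
      simp only [List.length_replicate]
      by_cases hbr : Bridgeless (D6b.gr ends)
      · rw [if_neg (by rw [hb]; exact fun h => h hbr)]
        refine (signBits_pos ?_).symm
        rw [Z_line ends hqq, ← mul_assoc, ← mul_pow]
        norm_num
        rcases Nat.eq_zero_or_pos n with hn | hn
        · subst hn
          have hk : k = 0 := by
            rcases Nat.eq_zero_or_pos k with hk | hk
            · exact hk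
            · exact ((ends ⟨0, hk⟩).1).elim0
          subst hk
          have hm : m (D6b.gr ends) q ⊥ univ = 1 := by
            unfold m
            rw [Finset.univ_eq_empty, Finset.powerset_empty, Finset.sum_singleton]
            simp [wt, cl]
          rw [hm]
          norm_num
        · have h := h₂ q hq2 n k (D6b.gr ends) hn hbr
          have : 0 < q - 1 := by linarith
          positivity
      · rw [if_pos (hb.2 hbr), Z_line ends hqq, m_zero ends hqq hbr]
        simp [signBits]

end Pool.Agent.Results.MP_e0c037_lc.SignInR3
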